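import Pool.Agent.Helper2.GResult

set_option autoImplicit false

namespace Pool.Agent.Helper2.Variants.DenseDivisors

open Finset Pool.Agent.Helper2.G

/-- **Dense sets of divisors have maximal sumsets.**

For all `k`, `ε > 0` and real `b` there is `c > 0` such that, for every `n ≥ 1`, every set `A` of
integers dividing `n` with `|A| ≥ τ(n)^(1-c)` and every finite nonempty set `X` of integers with
`|X| ≤ |A|^b` satisfy `|X + kA| ≥ c |X| |A|^(k-ε)`.

With `X = {0}` this is `|kA| ≥ c |A|^(k-ε)`.  Nothing is assumed about `n`; it may be a product of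
distinct primes. -/
theorem result : ∀ k : ℕ, ∀ ε b : ℝ, 0 < ε → ∃ c : ℝ, 0 < c ∧
    ∀ n : ℕ, n ≠ 0 → ∀ A : Finset ℤ, (∀ a ∈ A, a ∣ (n : ℤ)) →
      (n.divisors.card : ℝ) ^ (1 - c) ≤ (A.card : ℝ) →
      ∀ X : Finset ℤ, X.Nonempty → (X.card : ℝ) ≤ (A.card : ℝ) ^ b →
        c * X.card * (A.card : ℝ) ^ ((k : ℝ) - ε) ≤
          (((X ×ˢ Fintype.piFinset (fun _ : Fin k => A)).image
            (fun f : ℤ × (Fin k → ℤ) => f.1 + ∑ i, f.2 i)).card : ℝ) :=
  fun _ _ _ hε => many hε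

end Pool.Agent.Helper2.Variants.DenseDivisors
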