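import Pool.Agent.Helper2.FFinal

set_option autoImplicit false

namespace Pool.Agent.Helper2.Variants.FewSumsOld

open Finset Pool.Agent.Helper2.F

/-- **Growing sumsets or maximal product sets, for every `k`.**

For all `k ≥ 1`, `ε > 0` and real `b` there is `c > 0` such that every finite nonempty set `A` of
integers satisfies `|A^k| ≥ c |A|^(k-ε)`, or `|hA| ≥ |A|^(min(b, 1 + c(h-1)))` for every `h ≥ 1`.

In particular (`h = 2`) few sums, `|A + A| < |A|^(1+c)`, force `|A^k| ≥ c |A|^(k-ε)`; and the
inequality of the problem holds with the full exponent for products if the number of summands may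
be some larger `h = h(k, ε, b)`. -/
theorem result : ∀ k : ℕ, 1 ≤ k → ∀ ε b : ℝ, 0 < ε → ∃ c : ℝ, 0 < c ∧
    ∀ A : Finset ℤ, A.Nonempty →
      c * (A.card : ℝ) ^ ((k : ℝ) - ε) ≤
        (((Fintype.piFinset (fun _ : Fin k => A)).image
          (fun f : Fin k → ℤ => ∏ i, f i)).card : ℝ) ∨
      ∀ h : ℕ, 1 ≤ h → (A.card : ℝ) ^ (min b (1 + c * ((h : ℝ) - 1))) ≤
        (((Fintype.piFinset (fun _ : Fin h => A)).image
          (fun f : Fin h → ℤ => ∑ i, f i)).card : ℝ) :=
  fun k hk ε b hε => manySums k hk ε b hε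

end Pool.Agent.Helper2.Variants.FewSumsOld
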