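import Pool.Agent.Helper2.HGrowth

set_option autoImplicit false

namespace Pool.Agent.Helper2.Variants.LogGrowthOld

open Finset

/-- The first version of LogGrowth (exponent `(log k) / 200`), with a different proof; superseded
by `Pool.Agent.Results.MP_120218_co.LogGrowth`. -/
theorem result : ∃ C : ℕ → ℝ, (∀ n, 0 < C n) ∧ ∀ A : Finset ℤ, A.Nonempty →
    (∀ h : ℕ, 1 ≤ h → C h * (A.card : ℝ) ^ (Real.log h / 200) ≤
      (((Fintype.piFinset (fun _ : Fin h => A)).image
        (fun f : Fin h → ℤ => ∑ i, f i)).card : ℝ)) ∨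
    (∀ k : ℕ, 1 ≤ k → C k * (A.card : ℝ) ^ (Real.log k / 200) ≤
      (((Fintype.piFinset (fun _ : Fin k => A)).image
        (fun f : Fin k → ℤ => ∏ i, f i)).card : ℝ)) :=
  Pool.Agent.Helper2.H.growth

end Pool.Agent.Helper2.Variants.LogGrowthOld
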