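import Pool.Agent.Helper2.ERich

set_option autoImplicit false

namespace Pool.Agent.Helper2.Variants.RichCosets

open Finset Pool.Agent.Helper2.E

/-- **Many elements in rich cosets of one multiplicative group of small rank force a sumset of
nearly maximal size.**

For all `k ≥ 1`, `ε > 0` and `δ > 0` there is `c > 0` with the following property. Let `A` be a
finite set of integers and let `Γ` be a subgroup of the multiplicative group of the rationals
generated by at most `c log |A|` elements. If at least `|A|^(1-c)` elements `b` of `A` are such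
that the coset `Γ b` contains at least `|A|^δ` elements of `A`, then `|kA| ≥ c |A|^(k-ε)`. -/
theorem result : ∀ k : ℕ, 1 ≤ k → ∀ ε : ℝ, 0 < ε → ∀ δ : ℝ, 0 < δ → ∃ c : ℝ, 0 < c ∧
    ∀ A B : Finset ℤ, A.Nonempty → B ⊆ A → (A.card : ℝ) ^ (1 - c) ≤ (B.card : ℝ) →
    ∀ T : Finset ℚˣ, (T.card : ℝ) ≤ c * Real.log (A.card : ℝ) →
      (∀ b ∈ B, b ≠ 0 → (A.card : ℝ) ^ δ ≤
        (Set.ncard {a : ℤ | a ∈ A ∧ ∃ γ ∈ Subgroup.closure (T : Set ℚˣ),
          (a : ℚ) = (γ : ℚ) * (b : ℚ)} : ℝ)) →
      c * (A.card : ℝ) ^ ((k : ℝ) - ε) ≤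
        (((Fintype.piFinset (fun _ : Fin k => A)).image
            (fun f : Fin k → ℤ => ∑ i, f i)).card : ℝ) :=
  rich_cosets

end Pool.Agent.Helper2.Variants.RichCosets
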