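import Pool.Agent.Helper2.R3

set_option autoImplicit false

namespace Pool.Agent.Helper2.Variants.SmallK

open Finset Pool.Agent.Helper2.R

/-- **Explicit exponents for the `k`-fold sum-product problem, for small `k`.**

There is an absolute constant `c > 0` such that, for every `k = m + 2 ≥ 2` and every finite
non-empty set `A` of reals, with `q = 2^(k-2)`,
`max (|kA|, |A^k|) ≥ c |A|^g / (1 + log |A|)^(1/3)`, `g = (12 q² - 9 q + 1) / (8 q² - 5 q)`.
So `g = 4/3` for `k = 2` (Solymosi), `g = 31/22` for `k = 3`, `g = 157/108` for `k = 4`, and `g`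
increases to `3/2`. -/
theorem result : ∃ c : ℝ, 0 < c ∧ ∀ (m : ℕ) (A : Finset ℝ), A.Nonempty →
    c * (A.card : ℝ) ^
        ((12 * ((2:ℝ) ^ m) ^ 2 - 9 * (2:ℝ) ^ m + 1) / (8 * ((2:ℝ) ^ m) ^ 2 - 5 * (2:ℝ) ^ m)) ≤
      (1 + Real.log (A.card : ℝ)) ^ (1 / 3 : ℝ) *
        max
          (((Fintype.piFinset (fun _ : Fin (m + 2) => A)).image
              (fun f : Fin (m + 2) → ℝ => ∑ i, f i)).card : ℝ)
          (((Fintype.piFinset (fun _ : Fin (m + 2) => A)).image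
              (fun f : Fin (m + 2) → ℝ => ∏ i, f i)).card : ℝ) := by
  obtain ⟨c, hc, h⟩ := gen_case
  refine ⟨c, hc, fun m A hA => ?_⟩
  have h1 : (12 * ((2:ℝ) ^ m) ^ 2 - 9 * (2:ℝ) ^ m + 1) /
      (8 * ((2:ℝ) ^ m) ^ 2 - 5 * (2:ℝ) ^ m) = gk m := by
    unfold gk
    have hq : (1:ℝ) ≤ (2:ℝ) ^ m := one_le_pow₀ (by norm_num)
    have h2 : (1 / 2 : ℝ) ^ m = 1 / (2:ℝ) ^ m := by rw [one_div_pow]
    rw [h2]
    set q : ℝ := (2:ℝ) ^ m
    have h3 : 8 * q ^ 2 - 5 * q ≠ 0 := by nlinarith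
    have h4 : 8 - 5 * (1 / q) ≠ 0 := by
      have : 1 / q ≤ 1 := by rw [div_le_one (by linarith)]; exact hq
      linarith
    rw [div_eq_div_iff h3 h4]
    have hq0 : q ≠ 0 := by linarith
    field_simp
  rw [h1]
  exact h m A hA

end Pool.Agent.Helper2.Variants.SmallK
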